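import Pool.Agent.helper7.PQ.Spec

set_option autoImplicit false

/-!
Row pq:C2 of the project pq (MP_ebc808_nt): the second sum depends only on `k`.
-/

open Finset PowerSeries

noncomputable section

namespace Pool.Agent.PQ

open Pool.Agent.EP

theorem C2_pow (b : ℕ) (hb : b % 2 = 1) (hb3 : 3 ≤ b) : 2 ^ b % 24 = 8 := by
  obtain ⟨c, rfl⟩ : ∃ c, b = 2 * c + 3 := ⟨(b - 3) / 2, by omega⟩
  have h1 : 2 ^ (2 * c + 3) = 8 * 4 ^ c := by
    rw [pow_add, pow_mul]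
    norm_num [mul_comm]
  have h2 : 4 ^ c % 3 = 1 := by
    rw [Nat.pow_mod]
    norm_num
  rw [h1]
  have h3 := Nat.mul_mod_mul_left 8 (4 ^ c) 3
  rw [h2] at h3
  omega

theorem C2_sq (u : ℕ) (hu : u.Coprime 6) : u ^ 2 % 24 = 1 := by
  have h2 : u % 2 = 1 := by
    by_contra hc
    have h3 : 2 ∣ u := by omega
    have h4 : 2 ∣ Nat.gcd u 6 := Nat.dvd_gcd h3 (by norm_num)
    rw [hu] at h4
    omega
  have h3 : u % 3 ≠ 0 := by
    intro hc
    have h3 : 3 ∣ u := by omega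
    have h4 : 3 ∣ Nat.gcd u 6 := Nat.dvd_gcd h3 (by norm_num)
    rw [hu] at h4
    omega
  have h4 : u % 24 = 1 ∨ u % 24 = 5 ∨ u % 24 = 7 ∨ u % 24 = 11 ∨ u % 24 = 13 ∨ u % 24 = 17 ∨
      u % 24 = 19 ∨ u % 24 = 23 := by omega
  rw [Nat.pow_mod]
  rcases h4 with h | h | h | h | h | h | h | h <;> rw [h]

/-- **C2** -/
theorem C2 (hRPE : RPE_stmt) : C2_stmt := by
  intro b t m r hb hb3 ht hr hm
  refine ⟨fun k => ∑ u ∈ uB b k, r (((k - 2 ^ b * u ^ 2) * m + 1) / 24), ?_⟩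
  intro k M hk hM
  refine Finset.sum_congr rfl fun u hu => ?_
  obtain ⟨-, hu6, hule⟩ := Finset.mem_filter.mp hu
  have hdvd : 24 * t ∣ 24 * t * 2 ^ b := Dvd.intro _ rfl
  have hdvd' : 24 ∣ 24 * t * 2 ^ b := ⟨t * 2 ^ b, by ring⟩
  have hk24 : k % 24 = 1 := by
    have h1 : k % (24 * t * 2 ^ b) % 24 = k % 24 := Nat.mod_mod_of_dvd k hdvd'
    rw [hk] at h1
    omega
  have hM24 : M % 24 = 7 := by
    have h1 : M % (24 * t * 2 ^ b) % 24 = M % 24 := Nat.mod_mod_of_dvd M hdvd'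
    have h2 : m % (24 * t * 2 ^ b) % 24 = m % 24 := Nat.mod_mod_of_dvd m hdvd'
    rw [hM] at h1
    omega
  have hMt : M % (24 * t) = m % (24 * t) := by
    have h1 : M % (24 * t * 2 ^ b) % (24 * t) = M % (24 * t) := Nat.mod_mod_of_dvd M hdvd
    have h2 : m % (24 * t * 2 ^ b) % (24 * t) = m % (24 * t) := Nat.mod_mod_of_dvd m hdvd
    rw [hM] at h1
    exact h1.symm.trans h2
  have hprod : (2 ^ b * u ^ 2) % 24 = 8 := by
    rw [Nat.mul_mod, C2_pow b hb hb3, C2_sq u hu6]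
  have hd : (k - 2 ^ b * u ^ 2) % 24 = 17 := by omega
  apply hRPE t r _ _ ht hr
  · rw [Nat.mul_mod, hd, hM24]
  · rw [Nat.mul_mod, hMt, ← Nat.mul_mod]

end Pool.Agent.PQ
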